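import Pool.Agent.H10x.HA.Ideals

/-!
# Hindman's theorem for colourings with few changes of colour

A number is regarded as the set of its binary digits one, and the number of changes of colour along
chains of such sets is counted (the alternation number of Markov, for circuits with few negations).
For every bound on the number of changes the restriction of Hindman's theorem to the colourings
with this bound is either computably true or as strong as the full theorem; for the colourings
which are eventually constant along every infinite chain it is equivalent to arithmetical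
comprehension over `ω`-models.
-/

namespace Pool.Agent.Results.MP_69fea5_lc.ColourChanges

open Pool.Agent.Y545.HM Pool.Agent.Y545.HM.St Pool.Agent.H10x.HA

/-- **The strength of Hindman's theorem for colourings with few changes of colour.** -/
theorem result :
    -- few changes: solutions computable from the colouring
    (∀ (A : Set ℕ) (w : ℕ → ℕ), Monotone w → ¬ Dominates A w → ∀ (k : ℕ) (c : ℕ → Fin k),
      Computes A (fun n => Part.some (c n).val) → Few End w c →
        ∃ X, Solution c X ∧ Computes A (char X)) ∧
    -- a bound above an unbounded computable function: as hard as arbitrary colourings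
    (∀ (A : Set ℕ) (w : ℕ → ℕ), Monotone w → Dominates A w →
      ∃ φ : ℕ → ℕ, Computes A (fun n => Part.some (φ n)) ∧ (∀ n, 0 < n → 0 < φ n) ∧
        ∀ (k : ℕ) (c : ℕ → Fin k), Few Sub w (c ∘ φ) ∧
          (∀ Y, Solution (c ∘ φ) Y → ∃ X, Solution c X ∧ Computes (Join A Y) (char X)) ∧
          ∀ X, Solution c X → ∃ Y, Solution (c ∘ φ) Y ∧ Computes (Join A X) (char Y)) ∧
    -- eventually constant along every chain: one jump is enough
    (∀ (A : Set ℕ) (k : ℕ) (c : ℕ → Fin k), Computes A (fun n => Part.some (c n).val) →
      Conv End c → ∃ S, Enum A S ∧ ∃ X, Solution c X ∧ Computes (Join A S) (char X)) ∧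
    -- and it can be coded, with slowly growing numbers of changes
    (∀ (A S : Set ℕ) (w : ℕ → ℕ), Enum A S → Monotone w → Dominates A w →
      ∃ c : ℕ → Fin 2, Computes A (fun n => Part.some (c n).val) ∧ Few Sub w c ∧ Conv Sub c ∧
        ∀ Y, Solution c Y → Computes (Join A Y) (char S)) ∧
    -- the strength over `ω`-models
    ∀ I : Set (Set ℕ), Ideal I → ∀ R : ℕ → ℕ → Prop, Between R →
      (HT I (fun _ c => Conv R c) ↔ ACA I) ∧ ∀ w : ℕ → ℕ, Monotone w →
        (HT I (fun _ c => Few R w c) ↔
          ((∃ A ∈ I, Dominates A w) → HT I fun _ _ => True)) ∧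
        (HT I (fun _ c => Few R w c ∧ Conv R c) ↔ ((∃ A ∈ I, Dominates A w) → ACA I)) := by
  refine ⟨?_, ?_, ?_, ?_, ?_⟩
  · intro A w hmono hw k c hc hm
    obtain ⟨X, hX, hXd⟩ := small hmono (fun h => hw (dominates_iff.2 h)) (computes_col.1 hc) hm
    exact ⟨X, hX, computes_set.2 hXd⟩
  · intro A w hmono hw
    obtain ⟨φ, h1, h3, h4⟩ := large hmono (dominates_iff.1 hw)
    refine ⟨φ, computes_fun.2 h1, h3, fun k c => ⟨(h4 k c).1, fun Y hY => ?_, fun X hX => ?_⟩⟩
    · obtain ⟨X, hX, hXd⟩ := (h4 k c).2.2.1 (join A Y) Y dec_left dec_right hY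
      exact ⟨X, hX, computes_set.2 hXd⟩
    · obtain ⟨Y, hY, hYd⟩ := (h4 k c).2.2.2 (join A X) X dec_left dec_right hX
      exact ⟨Y, hY, computes_set.2 hYd⟩
  · intro A k c hc hv
    obtain ⟨S, hS, X, hX, hXd⟩ := upper1 (computes_col.1 hc) hv
    exact ⟨S, enum_iff.2 hS, X, hX, computes_set.2 hXd⟩
  · intro A S w hS hmono hw
    obtain ⟨c, h1, h2, h3, h4⟩ := code_slow (enum_iff.1 hS) hmono (dominates_iff.1 hw)
    exact ⟨c, computes_col.2 h1, h2, h3, fun Y hY =>
      computes_set.2 (h4 (join A Y) Y dec_left dec_right hY)⟩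
  · intro I hI R hR
    have hI' := ideal_iff.1 hI
    refine ⟨?_, fun w hmono => ⟨?_, ?_⟩⟩
    · rw [ht_iff, aca_iff]
      exact class_conv hR hI'
    · rw [ht_iff, ht_iff, dom_iff]
      exact class_few hR hI' hmono
    · rw [ht_iff, dom_iff, aca_iff]
      exact class_both hR hI' hmono

end Pool.Agent.Results.MP_69fea5_lc.ColourChanges
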