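import Pool.Agent.Helper76x.HT.Univ3

/-!
The colour of the solutions of Hindman's theorem is complete over the triple jump.

For any two disjoint `Σ⁰₄` sets `B₁`, `B₀` there is a uniformly computable sequence of colourings
with two colours such that all solutions of Hindman's theorem for the colouring number `a` have the
first colour if `a ∈ B₁`, and the second colour if `a ∈ B₀`. The same holds for sums of at most
three elements, with 18 colours. So every function which finds a colour of a solution, or an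
element of a solution, for each member of a certain computable sequence of colourings, and
every solution of the iterated Hindman theorem for this sequence, has PA degree over the triple
jump `0'''`; in particular it computes `0'''`.
-/

namespace Pool.Agent.Results.MP_69fea5_lc.ColourTripleJump

open Pool.Agent.Helper76x.HT Encodable Nat.Partrec

/-- The characteristic function of a set of natural numbers, as a (total) partial function. -/
noncomputable def char (B : Set ℕ) : ℕ →. ℕ := by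
  classical exact fun n => Part.some (if n ∈ B then 1 else 0)

/-- `B` is `Σ⁰₄`. -/
def Sigma4 (B : Set ℕ) : Prop :=
  ∃ R : ℕ → ℕ → ℕ → ℕ → ℕ → Bool,
    Computable (fun q : ℕ × ℕ × ℕ × ℕ × ℕ => R q.1 q.2.1 q.2.2.1 q.2.2.2.1 q.2.2.2.2) ∧
      ∀ n, n ∈ B ↔ ∃ x, ∀ u, ∃ v, ∀ w, R n x u v w = true

/-- `X` is an infinite set of positive integers such that all sums of at most `m` distinct elements
of `X` have the colour `i`. For `m = ⊤` this is a solution of Hindman's theorem for `c` with the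
colour `i`. -/
def Sol {k : ℕ} (m : ℕ∞) (c : ℕ → Fin k) (X : Set ℕ) (i : Fin k) : Prop :=
  X.Infinite ∧ 0 ∉ X ∧ ∀ F : Finset ℕ, (F : Set ℕ) ⊆ X → F.Nonempty → (F.card : ℕ∞) ≤ m →
    c (∑ n ∈ F, n) = i

/-- Any two disjoint `Σ⁰₄` sets are separated by a set computable in `f`: the function `f` has PA
degree over `0'''`. -/
def PATripleJump (f : ℕ → ℕ) : Prop :=
  ∀ B₁ B₀ : Set ℕ, Sigma4 B₁ → Sigma4 B₀ → Disjoint B₁ B₀ →
    ∃ P : Set ℕ, B₁ ⊆ P ∧ Disjoint B₀ P ∧ TuringReducible (char P) (fun n => Part.some (f n))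

theorem core {k : ℕ} {m : ℕ∞} (hkm : (k = 2 ∧ m = ⊤) ∨ (k = 18 ∧ m = 3))
    {R R' : ℕ → ℕ → ℕ → ℕ → ℕ → Bool}
    (hR : Computable fun q : ℕ × ℕ × ℕ × ℕ × ℕ => R q.1 q.2.1 q.2.2.1 q.2.2.2.1 q.2.2.2.2)
    (hR' : Computable fun q : ℕ × ℕ × ℕ × ℕ × ℕ => R' q.1 q.2.1 q.2.2.1 q.2.2.2.1 q.2.2.2.2) :
    ∃ c : ℕ → ℕ → Fin k, Computable (fun p : ℕ × ℕ => c p.1 p.2) ∧ ∃ S : Set (Fin k),
      ∀ a X i, Sol m (c a) X i → (S4 R a → ¬ S4 R' a → i ∈ S) ∧ (S4 R' a → ¬ S4 R a → i ∉ S) := by
  rcases hkm with ⟨rfl, rfl⟩ | ⟨rfl, rfl⟩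
  · refine ⟨c2 R R', c_c2 hR hR', {1}, fun a X i h => ⟨fun h1 h2 => ?_, fun h1 h2 => ?_⟩⟩
    · exact (main2 (HB_lim1 h1 h2) h.1 h.2.1 fun F f1 f2 => h.2.2 F f1 f2 le_top).2 trivial
    · exact fun h3 => (main2 (HB_lim0 h1 h2) h.1 h.2.1 fun F f1 f2 => h.2.2 F f1 f2 le_top).1 h3
  · refine ⟨ca (HB R R'), c_ca (c_HB hR hR'), SS,
      fun a X i h => ⟨fun h1 h2 => ?_, fun h1 h2 => ?_⟩⟩
    · exact (main3 (HB_lim1 h1 h2) h.1 h.2.1 fun F f1 f2 f3 => h.2.2 F f1 f2
        (by exact_mod_cast f3)).2 trivial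
    · exact fun h3 => (main3 (HB_lim0 h1 h2) h.1 h.2.1 fun F f1 f2 f3 => h.2.2 F f1 f2
        (by exact_mod_cast f3)).1 h3

theorem pa_of {f h : ℕ → ℕ} {G : ℕ → ℕ → Bool} (hh : Computable h)
    (hG : Computable fun p : ℕ × ℕ => G p.1 p.2)
    (h1 : ∀ a, S4 V1 a → ¬ S4 V0 a → G a (f (h a)) = true)
    (h0 : ∀ a, S4 V0 a → ¬ S4 V1 a → G a (f (h a)) = false) : PATripleJump f := by
  classical
  rintro B₁ B₀ ⟨R, hR, hB⟩ ⟨R', hR', hB'⟩ hd
  obtain ⟨e1, he1⟩ := univ4 hR
  obtain ⟨e0, he0⟩ := univ4 hR'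
  have k1 : ∀ n, n ∈ B₁ ↔ S4 V1 (Nat.pair (Nat.pair e0 e1) n) := fun n =>
    (hB n).trans ((he1 n).trans S4_V1.symm)
  have k0 : ∀ n, n ∈ B₀ ↔ S4 V0 (Nat.pair (Nat.pair e0 e1) n) := fun n =>
    (hB' n).trans ((he0 n).trans S4_V0.symm)
  have hno : ∀ n, n ∈ B₁ → n ∉ B₀ := fun n h2 h3 => Set.disjoint_left.1 hd h2 h3
  refine ⟨{n | G (Nat.pair (Nat.pair e0 e1) n) (f (h (Nat.pair (Nat.pair e0 e1) n))) = true},
    fun n hn => ?_, ?_, ?_⟩
  · exact h1 _ ((k1 n).1 hn) fun h2 => hno n hn ((k0 n).2 h2)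
  · rw [Set.disjoint_left]
    intro n hn h2
    have h3 := h0 _ ((k0 n).1 hn) fun h4 => hno n ((k1 n).2 h4) hn
    rw [Set.mem_setOf_eq, h3] at h2
    cases h2
  · have hp : Computable fun n : ℕ => Nat.pair (Nat.pair e0 e1) n := by fun_prop
    have h2 := red (f := f) (h := fun n => h (Nat.pair (Nat.pair e0 e1) n))
      (G := fun n y => G (Nat.pair (Nat.pair e0 e1) n) y) (hh.comp hp)
      (hG.comp (g := fun p : ℕ × ℕ => (Nat.pair (Nat.pair e0 e1) p.1, p.2)) (by fun_prop))
    have h3 : (fun n => Part.some (bif G (Nat.pair (Nat.pair e0 e1) n)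
        (f (h (Nat.pair (Nat.pair e0 e1) n))) then 1 else 0)) =
        char {n | G (Nat.pair (Nat.pair e0 e1) n) (f (h (Nat.pair (Nat.pair e0 e1) n))) =
          true} := by
      funext n
      unfold char
      cases h4 : G (Nat.pair (Nat.pair e0 e1) n) (f (h (Nat.pair (Nat.pair e0 e1) n)))
      · rw [if_neg (by rw [Set.mem_setOf_eq, h4]; simp)]
        rfl
      · rw [if_pos (by rw [Set.mem_setOf_eq, h4])]
        rfl
    rw [← h3]
    exact h2

/-- **The colour of the solutions of Hindman's theorem.** -/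
theorem result :
    -- two colours and all sums, or 18 colours and sums of at most three elements
    (∀ (k : ℕ) (m : ℕ∞), (k = 2 ∧ m = ⊤) ∨ (k = 18 ∧ m = 3) →
      -- the colour of the solutions separates disjoint `Σ⁰₄` sets
      (∀ B₁ B₀ : Set ℕ, Sigma4 B₁ → Sigma4 B₀ → Disjoint B₁ B₀ →
        ∃ c : ℕ → ℕ → Fin k, Computable (fun p : ℕ × ℕ => c p.1 p.2) ∧ ∃ S : Set (Fin k),
          ∀ a X i, Sol m (c a) X i → (a ∈ B₁ → i ∈ S) ∧ (a ∈ B₀ → i ∉ S)) ∧
      -- a computable sequence of colourings: elements of solutions, and the solutions of the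
      -- iterated Hindman theorem, have PA degree over the triple jump
      (∃ c : ℕ → ℕ → Fin k, Computable (fun p : ℕ × ℕ => c p.1 p.2) ∧
        (∀ f : ℕ → ℕ, (∀ a, ∃ X i, Sol m (c a) X i ∧ f a ∈ X) → PATripleJump f) ∧
        ∀ x : ℕ → ℕ, StrictMono x → (∀ a, ∃ i, Sol m (c a) {n | ∃ j, a ≤ j ∧ x j = n} i) →
          PATripleJump x) ∧
      -- finding the colour of a solution for each computable colouring
      (∀ g : ℕ → ℕ, (∀ (e : Code) (c : ℕ → Fin k), (∀ n, (c n : ℕ) ∈ e.eval n) →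
        ∃ X i, Sol m c X i ∧ g (encode e) = i) → PATripleJump g)) ∧
    -- functions of PA degree over the triple jump compute the triple jump
    ∀ f, PATripleJump f → ∀ B, Sigma4 B → Sigma4 Bᶜ →
      TuringReducible (char B) (fun n => Part.some (f n)) := by
  classical
  refine ⟨fun k m hkm => ?_, fun f hf B h1 h2 => ?_⟩
  · obtain ⟨c, hc, S, hS⟩ := core hkm c_V1 c_V0
    have hm1 : (1 : ℕ∞) ≤ m := by
      rcases hkm with ⟨-, rfl⟩ | ⟨-, rfl⟩
      · exact le_top
      · norm_num
    have hdS : Computable fun i : Fin k => decide (i ∈ S) :=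
      (Primrec.dom_finite fun i : Fin k => decide (i ∈ S)).to_comp
    have hel : ∀ f : ℕ → ℕ, (∀ a, ∃ X i, Sol m (c a) X i ∧ f a ∈ X) → PATripleJump f := by
      intro f hf
      have hcol : ∀ a, ∃ X i, Sol m (c a) X i ∧ c a (f a) = i := by
        intro a
        obtain ⟨X, i, s1, s2⟩ := hf a
        refine ⟨X, i, s1, ?_⟩
        have h1 := s1.2.2 {f a} (by simpa using s2) (by simp) (by simpa using hm1)
        rwa [Finset.sum_singleton] at h1
      refine pa_of (h := fun a => a) (G := fun a y => decide (c a y ∈ S)) Computable.id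
        (hdS.comp hc) (fun a h1 h0 => ?_) fun a h0 h1 => ?_
      · obtain ⟨X, i, s1, s2⟩ := hcol a
        rw [decide_eq_true_iff, s2]
        exact (hS a X i s1).1 h1 h0
      · obtain ⟨X, i, s1, s2⟩ := hcol a
        rw [decide_eq_false_iff_not, s2]
        exact (hS a X i s1).2 h0 h1
    refine ⟨?_, ⟨c, hc, hel, fun x _ hx => hel x fun a => ?_⟩, ?_⟩
    · rintro B₁ B₀ ⟨R, hR, hB⟩ ⟨R', hR', hB'⟩ hd
      obtain ⟨c', hc', S', hS'⟩ := core hkm hR hR'
      refine ⟨c', hc', S', fun a X i h => ⟨fun ha => ?_, fun ha => ?_⟩⟩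
      · exact (hS' a X i h).1 ((hB a).1 ha) fun h2 =>
          Set.disjoint_left.1 hd ha ((hB' a).2 h2)
      · exact (hS' a X i h).2 ((hB' a).1 ha) fun h2 =>
          Set.disjoint_left.1 hd ((hB a).2 h2) ha
    · obtain ⟨i, hi⟩ := hx a
      exact ⟨_, i, hi, a, le_rfl, rfl⟩
    · intro g hg
      have h1 : Computable fun q : ℕ => ((c q.unpair.1 q.unpair.2 : Fin k) : ℕ) := by
        have h2 : Computable fun i : Fin k => (i : ℕ) :=
          (Primrec.dom_finite fun i : Fin k => (i : ℕ)).to_comp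
        exact h2.comp (hc.comp (g := fun q : ℕ => (q.unpair.1, q.unpair.2)) (by fun_prop))
      obtain ⟨e, he⟩ := Code.exists_code.1 (Partrec.nat_iff.1 h1)
      have he2 : ∀ a n, (c a n : ℕ) ∈ (Code.curry e a).eval n := by
        intro a n
        rw [Code.eval_curry, he]
        simp
      have h2 : Computable fun a : ℕ => (encode (Code.curry e a) : ℕ) :=
        Computable.encode.comp (Code.primrec₂_curry.to_comp.comp (Computable.const e)
          Computable.id)
      have h3 : Computable fun p : ℕ × ℕ =>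
          ((decode (α := Fin k) p.2).map fun i => decide (i ∈ S)).getD false := by
        refine Computable.option_getD (Computable.option_map
          (Computable.decode.comp Computable.snd) ?_) (Computable.const false)
        exact (hdS.comp Computable.snd).to₂
      have h4 : ∀ i : Fin k, ((decode (α := Fin k) (i : ℕ)).map fun i => decide (i ∈ S)).getD
          false = decide (i ∈ S) := by
        intro i
        have h5 : decode (α := Fin k) (i : ℕ) = some i := encodek i
        rw [h5]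
        rfl
      have hcol : ∀ a, ∃ X i, Sol m (c a) X i ∧ g (encode (Code.curry e a)) = i := fun a =>
        hg (Code.curry e a) (c a) (he2 a)
      refine pa_of (f := g) (h := fun a => encode (Code.curry e a))
        (G := fun _ y => ((decode (α := Fin k) y).map fun i => decide (i ∈ S)).getD false) h2 h3
        (fun a h1 h0 => ?_) fun a h0 h1 => ?_
      · obtain ⟨X, i, s1, s2⟩ := hcol a
        rw [s2, h4, decide_eq_true_iff]
        exact (hS a X i s1).1 h1 h0
      · obtain ⟨X, i, s1, s2⟩ := hcol a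
        rw [s2, h4, decide_eq_false_iff_not]
        exact (hS a X i s1).2 h0 h1
  · obtain ⟨P, p1, p2, p3⟩ := hf B Bᶜ h1 h2 disjoint_compl_right
    have : P = B := by
      ext n
      constructor
      · intro h
        by_contra h4
        exact Set.disjoint_left.1 p2 h4 h
      · exact fun h => p1 h
    rwa [← this]

end Pool.Agent.Results.MP_69fea5_lc.ColourTripleJump
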