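import Pool.Agent.Helper13g.Major
import Pool.Agent.Helper13g.Three

/-!
# The growth of the solutions of Hindman's theorem

For every function `f` which is computable from the double jump there is a computable colouring with
three colours such that the principal function of every solution of Hindman's theorem bounds `f`
everywhere. There is one computable colouring with three colours such that the principal functions
of all solutions dominate all functions which are computable from the jump, and all functions which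
dominate the principal function of a solution compute the double jump. With six colours both hold
for the restriction to sums of at most four terms, and with twelve colours for sums of at most three
terms.
-/

namespace Pool.Agent.Results.MP_69fea5_lc.GrowthOfSolutions

/-- The characteristic function of a set of natural numbers, as a (total) partial function. -/
noncomputable def char (B : Set ℕ) : ℕ →. ℕ := by
  classical exact fun n => Part.some (if n ∈ B then 1 else 0)

/-- The set `B` is computable from the set `A`. -/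
def ComputesSet (A B : Set ℕ) : Prop := TuringReducible (char B) (char A)

/-- The function `f` is computable from the set `A`. -/
def ComputesFun (A : Set ℕ) (f : ℕ → ℕ) : Prop :=
  TuringReducible (fun n => Part.some (f n)) (char A)

/-- `X` is a solution for the colouring `c` and sums of at most `m` terms: an infinite set of positive
integers all of whose sums of finitely many, at least one and at most `m`, distinct elements have
the same colour. For `m = ⊤` these are the solutions of Hindman's theorem. -/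
def Sol {k : ℕ} (m : ℕ∞) (c : ℕ → Fin k) (X : Set ℕ) : Prop :=
  X.Infinite ∧ 0 ∉ X ∧ ∃ i, ∀ F : Finset ℕ, (F : Set ℕ) ⊆ X → F.Nonempty → (F.card : ℕ∞) ≤ m →
    c (∑ n ∈ F, n) = i

/-- The graph of `f` is `Σ⁰₃`, that is, `f` is computable from the double jump. -/
def Sigma3Graph (f : ℕ → ℕ) : Prop :=
  ∃ R : ℕ → ℕ → ℕ → ℕ → ℕ → Bool,
    Computable (fun x : ℕ × ℕ × ℕ × ℕ × ℕ => R x.1 x.2.1 x.2.2.1 x.2.2.2.1 x.2.2.2.2) ∧
      ∀ n m, f n = m ↔ ∃ a, ∀ b, ∃ t, R n m a b t = true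

/-- The graph of `g` is `Σ⁰₂`, that is, `g` is computable from the jump. -/
def Sigma2Graph (g : ℕ → ℕ) : Prop :=
  ∃ R : ℕ → ℕ → ℕ → ℕ → Bool,
    Computable (fun x : ℕ × ℕ × ℕ × ℕ => R x.1 x.2.1 x.2.2.1 x.2.2.2) ∧
      ∀ n m, g n = m ↔ ∃ a, ∀ b, R n m a b = true

/-- `B` is `Σ⁰₂`. -/
def Sigma2 (B : Set ℕ) : Prop :=
  ∃ R : ℕ → ℕ → ℕ → Bool, Computable (fun q : ℕ × ℕ × ℕ => R q.1 q.2.1 q.2.2) ∧
    B = {n | ∃ a, ∀ b, R n a b = true}

/-- `p` dominates all functions which are computable from the jump, and every set which computes a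
function dominating `p` computes all `Σ⁰₂` sets, that is, it computes the double jump. -/
def Fast (p : ℕ → ℕ) : Prop :=
  (∀ g, Sigma2Graph g → ∃ N, ∀ n, N ≤ n → g n ≤ p n) ∧
    ∀ (A : Set ℕ) (G : ℕ → ℕ), ComputesFun A G → (∃ N, ∀ n, N ≤ n → p n ≤ G n) →
      ∀ B, Sigma2 B → ComputesSet A B

/-- The lower bounds for `k` colours and sums of at most `m` terms. The function
`Nat.nth (· ∈ X)` is the principal function of `X`: it lists the elements of `X` in increasing
order. -/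
def LowerBounds (k : ℕ) (m : ℕ∞) : Prop :=
  (∀ f, Sigma3Graph f → ∃ c : ℕ → Fin k, Computable c ∧ ∀ X, Sol m c X →
    ∀ n, f n ≤ Nat.nth (· ∈ X) n) ∧
  ∃ c : ℕ → Fin k, Computable c ∧ ∀ X, Sol m c X → Fast (Nat.nth (· ∈ X))

section lib

open Pool.Agent.Helper13g Pool.Agent.H645R2.HT Pool.Agent.Helper446.RE

/-- a number below `3` as a colour -/
def fin3 (m : ℕ) : Fin 3 := bif decide (m = 0) then 0 else bif decide (m = 1) then 1 else 2

theorem fin3_val {m : ℕ} (h : m < 3) : (fin3 m : ℕ) = m := by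
  interval_cases m <;> rfl

theorem c_fin3 : Computable fin3 := by
  unfold fin3
  exact ccond (c_deq (by fun_prop) (by fun_prop)) (by fun_prop)
    (ccond (c_deq (by fun_prop) (by fun_prop)) (by fun_prop) (by fun_prop))

/-- two colours and three colours -/
def pack (q : Bool × Fin 3) : Fin 6 := ⟨(bif q.1 then 3 else 0) + q.2, by
  cases q.1 <;> simp only [cond_true, cond_false] <;> omega⟩

theorem pack_inj : Function.Injective pack := by decide

/-- two colours and six colours -/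
def pack2 (q : Bool × Fin 6) : Fin 12 := ⟨(bif q.1 then 6 else 0) + q.2, by
  cases q.1 <;> simp only [cond_true, cond_false] <;> omega⟩

theorem pack2_inj : Function.Injective pack2 := by decide

variable {S : ℕ → ℕ → ℕ → ℕ → Bool} {X : Set ℕ}

/-- the colouring with three colours -/
def col3 (S : ℕ → ℕ → ℕ → ℕ → Bool) (n : ℕ) : Fin 3 := fin3 (c3 (yy S) n)

/-- the colouring with six colours -/
def col6 (S : ℕ → ℕ → ℕ → ℕ → Bool) (n : ℕ) : Fin 6 := pack (b0 n, col3 S n)

/-- the colouring with twelve colours -/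
def col12 (S : ℕ → ℕ → ℕ → ℕ → Bool) (n : ℕ) : Fin 12 :=
  pack2 (decide (s2 (yy S) n = 0), col6 S n)

theorem c_col3 (hS : Computable fun q : ℕ × ℕ × ℕ × ℕ => S q.1 q.2.1 q.2.2.1 q.2.2.2) :
    Computable (col3 S) := c_fin3.comp (c_c3 hS)

theorem c_col6 (hS : Computable fun q : ℕ × ℕ × ℕ × ℕ => S q.1 q.2.1 q.2.2.1 q.2.2.2) :
    Computable (col6 S) :=
  (Primrec.dom_finite pack).to_comp.comp (c_b0.pair (c_col3 hS))

theorem c_col12 (hS : Computable fun q : ℕ × ℕ × ℕ × ℕ => S q.1 q.2.1 q.2.2.1 q.2.2.2) :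
    Computable (col12 S) :=
  (Primrec.dom_finite pack2).to_comp.comp
    ((c_deq (c_s2 hS) (Computable.const 0)).pair (c_col6 hS))

theorem col3_eq {a b : ℕ} (h : col3 S a = col3 S b) : c3 (yy S) a = c3 (yy S) b := by
  have h1 := congrArg Fin.val h
  have h2 : ∀ n, c3 (yy S) n < 3 := fun n => Nat.mod_lt _ (by norm_num)
  unfold col3 at h1
  rwa [fin3_val (h2 a), fin3_val (h2 b)] at h1

theorem col6_eq {a b : ℕ} (h : col6 S a = col6 S b) : b0 a = b0 b ∧ col3 S a = col3 S b :=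
  ⟨congrArg Prod.fst (pack_inj h), congrArg Prod.snd (pack_inj h)⟩

theorem col12_eq {a b : ℕ} (h : col12 S a = col12 S b) :
    s2 (yy S) a = s2 (yy S) b ∧ col6 S a = col6 S b := by
  refine ⟨?_, congrArg Prod.snd (pack2_inj h)⟩
  have h1 := congrArg Prod.fst (pack2_inj h)
  have h2 := decide_eq_decide.1 h1
  have h3 : s2 (yy S) a < 2 := Nat.mod_lt _ (by norm_num)
  have h4 : s2 (yy S) b < 2 := Nat.mod_lt _ (by norm_num)
  omega

theorem const {k : ℕ} {m : ℕ∞} {c : ℕ → Fin k} (h : Sol m c X) (hm : 1 ≤ m) {β : Type}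
    (f : ℕ → β) (hf : ∀ a b, c a = c b → f a = f b) : ∃ i, ∀ F : Finset ℕ, (F : Set ℕ) ⊆ X →
      F.Nonempty → (F.card : ℕ∞) ≤ m → f (∑ n ∈ F, n) = i := by
  obtain ⟨h1, h2, i, hi⟩ := h
  obtain ⟨x, hx⟩ := h1.nonempty
  refine ⟨f x, fun F hF hne hc => hf _ _ ?_⟩
  have h5 := hi {x} (by simpa using hx) (Finset.singleton_nonempty x) (by simpa using hm)
  rw [Finset.sum_singleton] at h5
  exact (hi F hF hne hc).trans h5.symm

theorem digits {k : ℕ} {m : ℕ∞} {c : ℕ → Fin k} (h : Sol m c X) (hm : 2 ≤ m)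
    (hf : ∀ a b, c a = c b → b0 a = b0 b) : ∃ i, ∀ F : Finset ℕ, (F : Set ℕ) ⊆ X →
      F.Nonempty → F.card ≤ 2 → dg (la (∑ n ∈ F, n)) (∑ n ∈ F, n) = i := by
  have hp : ∀ x ∈ X, 0 < x := fun x hx => Nat.pos_of_ne_zero fun h' => h.2.1 (h' ▸ hx)
  obtain ⟨i, hi⟩ := const h (le_trans (by norm_num) hm) b0 hf
  refine ⟨bif i then 1 else 2, fun F hF hne hc => ?_⟩
  have h4 : b0 (∑ n ∈ F, n) = i := hi F hF hne (le_trans (by exact_mod_cast hc) hm)
  have hpos : 0 < ∑ n ∈ F, n := Finset.sum_pos (fun i hi => hp i (hF hi)) hne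
  have h5 := mem_L.1 (la_mem hpos)
  have h6 : dg (la (∑ n ∈ F, n)) (∑ n ∈ F, n) < 3 := Nat.mod_lt _ (by norm_num)
  rw [← h4]
  unfold b0
  by_cases h7 : dg (la (∑ n ∈ F, n)) (∑ n ∈ F, n) = 1
  · simp [h7]
  · rw [decide_eq_false h7]
    simp only [cond_false]
    omega

/-- the growth of the solutions for the three kinds of colourings -/
theorem growth (hS : ∀ x, ∃ p, Tr S x p) {f : ℕ → ℕ} {M n : ℕ}
    (hf : ∀ x p, M ≤ x → n < 3 ^ (x + 1) → Tr S x p → x + f n ≤ p) (hn : 3 ^ M ≤ n + 1)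
    (hX : Sol ⊤ (col3 S) X ∨ Sol 4 (col6 S) X ∨ Sol 3 (col12 S) X) :
    f n ≤ Nat.nth (· ∈ X) n := by
  have hn' : M ≤ n := by
    have := Nat.lt_pow_self (n := M) (by norm_num : 1 < 3)
    omega
  refine (Nat.lt_pow_self (by norm_num : 1 < 3)).le.trans ?_
  rcases hX with hX | hX | hX
  · obtain ⟨i, hi⟩ := const hX le_top (c3 (yy S)) fun a b h => col3_eq h
    exact grow3 hS hX.1 hX.2.1 ⟨i, fun F hF hne => hi F hF hne le_top⟩ hf hn
  · obtain ⟨i, hi⟩ := const hX (by norm_num) (c3 (yy S)) fun a b h => col3_eq (col6_eq h).2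
    exact grow4 hS hX.1 hX.2.1 ⟨i, fun F hF hne hc => hi F hF hne (by exact_mod_cast hc)⟩
      (digits hX (by norm_num) fun a b h => (col6_eq h).1) hf hn'
  · obtain ⟨i, hi⟩ := const hX (by norm_num) (c3 (yy S)) fun a b h =>
      col3_eq (col6_eq (col12_eq h).2).2
    obtain ⟨j, hj⟩ := const hX (by norm_num) (s2 (yy S)) fun a b h => (col12_eq h).1
    exact grow2 hS hX.1 hX.2.1 ⟨i, fun F hF hne hc => hi F hF hne (by exact_mod_cast hc)⟩
      ⟨j, fun F hF hne hc => hj F hF hne (by exact_mod_cast hc)⟩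
      (digits hX (by norm_num) fun a b h => (col6_eq (col12_eq h).2).1) hf hn'

theorem fast_of {p : ℕ → ℕ} (h : ∀ e, ∃ N, ∀ n, N ≤ n → wit e n ≤ p n) : Fast p := by
  classical
  constructor
  · rintro g ⟨R, hR, hg⟩
    obtain ⟨e, he⟩ := le_wit hR hg
    obtain ⟨N, hN⟩ := h e
    exact ⟨N, fun n hn => (he n).trans (hN n hn)⟩
  · rintro A G hG ⟨N, hN⟩ B ⟨R, hR, rfl⟩
    have h1 : Pool.Agent.Y545.HM.Gr A G :=
      Pool.Agent.Helper446.Oracle.turingReducible_fun_iff.1 hG
    refine Pool.Agent.Helper446.Oracle.turingReducible_iff.2 (major h1 (fun e => ?_) hR)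
    obtain ⟨N', hN'⟩ := h e
    exact ⟨max N N', fun n hn => (hN' n (by omega)).trans (hN n (by omega))⟩

theorem fast_sol (hX : Sol ⊤ (col3 SB) X ∨ Sol 4 (col6 SB) X ∨ Sol 3 (col12 SB) X) :
    Fast (Nat.nth (· ∈ X)) :=
  fast_of fun e => ⟨3 ^ e, fun _ hn => growth (M := e) SB_exists
    (fun _ _ hx hn h => wit_bound hx hn h) (by omega) hX⟩

end lib

/-- **The growth of the solutions of Hindman's theorem.** -/
theorem result : LowerBounds 3 ⊤ ∧ LowerBounds 6 4 ∧ LowerBounds 12 3 ∧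
    -- all finite sums which are divisible by a large power of `3` are large
    ∀ f, Sigma3Graph f → ∃ c : ℕ → Fin 3, Computable c ∧ ∀ X, Sol ⊤ c X →
      ∀ F : Finset ℕ, (F : Set ℕ) ⊆ X → F.Nonempty → ∀ j, 3 ^ j ∣ ∑ n ∈ F, n →
        f j ≤ ∑ n ∈ F, n := by
  refine ⟨⟨?_, ?_⟩, ⟨?_, ?_⟩, ⟨?_, ?_⟩, ?_⟩
  · rintro f ⟨R, hR, hf⟩
    exact ⟨col3 (Helper13g.SA R), c_col3 (Helper13g.c_SA hR), fun X hX n =>
      growth (M := 0) (Helper13g.SA_exists hf) (fun x p _ hn h => Helper13g.SA_bound hf hn h)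
        (by simp) (Or.inl hX)⟩
  · exact ⟨col3 Helper13g.SB, c_col3 Helper13g.c_SB, fun X hX => fast_sol (Or.inl hX)⟩
  · rintro f ⟨R, hR, hf⟩
    exact ⟨col6 (Helper13g.SA R), c_col6 (Helper13g.c_SA hR), fun X hX n =>
      growth (M := 0) (Helper13g.SA_exists hf) (fun x p _ hn h => Helper13g.SA_bound hf hn h)
        (by simp) (Or.inr (Or.inl hX))⟩
  · exact ⟨col6 Helper13g.SB, c_col6 Helper13g.c_SB, fun X hX => fast_sol (Or.inr (Or.inl hX))⟩
  · rintro f ⟨R, hR, hf⟩
    exact ⟨col12 (Helper13g.SA R), c_col12 (Helper13g.c_SA hR), fun X hX n =>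
      growth (M := 0) (Helper13g.SA_exists hf) (fun x p _ hn h => Helper13g.SA_bound hf hn h)
        (by simp) (Or.inr (Or.inr hX))⟩
  · exact ⟨col12 Helper13g.SB, c_col12 Helper13g.c_SB, fun X hX => fast_sol (Or.inr (Or.inr hX))⟩
  · rintro f ⟨R, hR, hf⟩
    refine ⟨col3 (Helper13g.SA R), c_col3 (Helper13g.c_SA hR), fun X hX F hF hne j hj => ?_⟩
    have hp : ∀ x ∈ X, 0 < x := fun x hx => Nat.pos_of_ne_zero fun h => hX.2.1 (h ▸ hx)
    have hpos : 0 < ∑ n ∈ F, n := Finset.sum_pos (fun i hi => hp i (hF hi)) hne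
    obtain ⟨i, hi⟩ := const hX le_top (Helper13g.c3 (Helper13g.yy (Helper13g.SA R)))
      fun a b h => col3_eq h
    obtain ⟨p, hp1, hp2⟩ := Helper13g.main3 (Helper13g.SA_exists hf) hX.1 hX.2.1
      ⟨i, fun F hF hne => hi F hF hne le_top⟩ hF hne
    have h1 := Pool.Agent.TH747.HT.le_la_of_dvd hpos hj
    have h2 : j < 3 ^ (H645R2.HT.la (∑ n ∈ F, n) + 1) :=
      lt_of_lt_of_le (Nat.lt_pow_self (by norm_num : 1 < 3))
        (Nat.pow_le_pow_right (by norm_num) (by omega))
    have h3 := Helper13g.SA_bound hf h2 hp1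
    calc f j ≤ 3 ^ f j := (Nat.lt_pow_self (by norm_num)).le
      _ ≤ 3 ^ H645R2.HT.mu (∑ n ∈ F, n) := Nat.pow_le_pow_right (by norm_num) (by omega)
      _ ≤ ∑ n ∈ F, n := Helper13g.pow_mu_le hpos

end Pool.Agent.Results.MP_69fea5_lc.GrowthOfSolutions
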