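import Pool.Agent.Helper76x.NZ.Core
import Pool.Agent.Helper76x.NZ.P1

/-!
# The strength of Hindman's theorem is concentrated on sets of small density

Which part of a colouring `c` of the positive integers is responsible for the complexity of the
solutions of Hindman's theorem for `c`? Let `D` be a set which meets every translate `h + FS(A)` of the
set of the finite sums of an infinite set `A`.

* Every colouring `c'` which agrees with `c` on `D` has the same solutions as `c`, up to Turing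
  reducibility: every solution for `c'` computes, together with `c`, a solution for `c` of the same
  colour (and alone, if `c` or `D` is computable).
* For every `ε > 0` there are computable sets `D` of this kind with at most `ε x` elements up to `x`, for
  all `x` (an example of Straus). So Hindman's theorem reduces to its restriction to colourings with
  all colours but one of density at most `ε`.
* The known lower bounds for computable colourings with two colours are caused by the colours on `D`, for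
  every `D` of this kind, and they hold for colourings with one of the two colours of density at most `ε`.
* If `D` is not syndetic (for example, if it has density zero), then there is a set computable in `D`
  which is a solution for all the colourings which are constant outside `D`. So `ε = 0` is impossible.
* The sets `D` of this kind form a filter, and independent random changes with probabilities
  of polynomial decay leave such a set unchanged.

The proof of `P1` was written by helper33. The colourings and the greedy construction are those of the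
starting files.
-/

set_option autoImplicit false

namespace Pool.Agent.Results.MP_69fea5_lc.SmallDensityCore

open Filter MeasureTheory ProbabilityTheory

/-- The characteristic function of a set of natural numbers, as a (total) partial function. -/
noncomputable def char (B : Set ℕ) : ℕ →. ℕ := by
  classical exact fun n => Part.some (if n ∈ B then 1 else 0)

/-- The join of two sets. -/
def join (A B : Set ℕ) : Set ℕ := {n | (n % 2 = 0 ∧ n / 2 ∈ A) ∨ (n % 2 = 1 ∧ n / 2 ∈ B)}

/-- The graph of a colouring, as a set of codes of pairs. -/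
def graph {k : ℕ} (c : ℕ → Fin k) : Set ℕ := {n | (c n.unpair.1 : ℕ) = n.unpair.2}

/-- The sums of the nonempty finite subsets of `X`. -/
def sums (X : Set ℕ) : Set ℕ := {n | ∃ F : Finset ℕ, F.Nonempty ∧ (F : Set ℕ) ⊆ X ∧ ∑ x ∈ F, x = n}

/-- `X` is a solution of Hindman's theorem for `c` with the colour `i`: an infinite set of positive
integers all of whose sums of finitely many distinct elements have the colour `i`. -/
def Solution {κ : Type} (c : ℕ → κ) (X : Set ℕ) (i : κ) : Prop :=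
  X.Infinite ∧ 0 ∉ X ∧ ∀ n ∈ sums X, c n = i

/-- `D` meets every translate `h + sums A` of the set of sums of an infinite set `A`. -/
def Meets (D : Set ℕ) : Prop := ∀ (h : ℕ) (A : Set ℕ), A.Infinite → ∃ n ∈ sums A, h + n ∈ D

/-- At most `ε x` of the numbers `1, ..., x` are in `D`, for all `x`. -/
def Density (ε : ℝ) (D : Set ℕ) : Prop := ∀ x : ℕ, ((D ∩ Set.Icc 1 x).ncard : ℝ) ≤ ε * x

/-- `D` is syndetic: it meets all the intervals of some length. -/
def Syndetic (D : Set ℕ) : Prop := ∃ g, ∀ y, ∃ n ∈ D, y ≤ n ∧ n ≤ y + g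

/-- Every `Σ⁰₂` set is Turing reducible to `X`, so `X` computes the double jump. -/
def ComputesDoubleJump (X : Set ℕ) : Prop :=
  ∀ R : ℕ → ℕ → ℕ → Bool, Computable (fun q : ℕ × ℕ × ℕ => R q.1 q.2.1 q.2.2) →
    TuringReducible (char {n | ∃ a, ∀ b, R n a b = true}) (char X)

/-- For every `Σ⁰₄` relation `G` there is a function `f` computable in `X` such that for no `q`
the number `f q` is the only `m` with `G q m`. If `G` is the graph of the diagonal partial function
computable in `0'''`, then `f` is diagonally noncomputable relative to `0'''`. -/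
def DiagonalOverTripleJump (X : Set ℕ) : Prop :=
  ∀ R : ℕ → ℕ → ℕ → ℕ → ℕ → ℕ → Bool,
    Computable (fun x : ℕ × ℕ × ℕ × ℕ × ℕ × ℕ =>
      R x.1 x.2.1 x.2.2.1 x.2.2.2.1 x.2.2.2.2.1 x.2.2.2.2.2) →
    ∃ f : ℕ → ℕ, TuringReducible (fun n => Part.some (f n)) (char X) ∧
      ∀ q, ¬ ∀ m, (∃ a, ∀ b, ∃ t, ∀ u, R q m a b t u = true) ↔ m = f q

/-- `X` is not `Σ⁰₄`. -/
def NotSigmaFour (X : Set ℕ) : Prop :=
  ∀ R : ℕ → ℕ → ℕ → ℕ → ℕ → Bool,
    Computable (fun x : ℕ × ℕ × ℕ × ℕ × ℕ => R x.1 x.2.1 x.2.2.1 x.2.2.2.1 x.2.2.2.2) →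
    X ≠ {n | ∃ a, ∀ b, ∃ t, ∀ u, R n a b t u = true}

section proofs

open Pool.Agent.H645R2.HT Pool.Agent.TH747.HS Pool.Agent.Helper446.Oracle
open Pool.Agent.TH747.HT hiding dl el c_dl c_el col
open Pool.Agent.Helper76x.NZ (re_trans transfer thin_gen Thin Ds thin_Ds comp_Ds)

lemma meets_iff {D : Set ℕ} : Meets D ↔ Thin Dᶜ := by
  unfold Meets Thin
  constructor
  · rintro h h' ⟨A, h1, h2⟩
    obtain ⟨n, ⟨F, f1, f2, rfl⟩, hn⟩ := h h' A h1
    exact h2 F f2 f1 hn
  · intro h h' A h1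
    by_contra h2
    push Not at h2
    exact h h' ⟨A, h1, fun F f1 f2 => h2 _ ⟨F, f2, f1, rfl⟩⟩

lemma meets_inter {D₁ D₂ : Set ℕ} (h1 : Meets D₁) (h2 : Meets D₂) : Meets (D₁ ∩ D₂) := by
  intro h A hA
  have hA' : (A \ {0}).Infinite := hA.sdiff (Set.finite_singleton 0)
  obtain ⟨U, hU, hUX⟩ := exists_idem hA' fun x hx => Nat.pos_of_ne_zero fun h => hx.2 h
  obtain ⟨l, ⟨k1, k2⟩, G, g1, g2, -, rfl⟩ := (((thin_gen (meets_iff.1 h1) hU h).and
    (thin_gen (meets_iff.1 h2) hU h)).and (hUX ∅)).exists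
  exact ⟨_, ⟨G, g1, g2.trans Set.sdiff_subset, rfl⟩, not_not.1 k1, not_not.1 k2⟩

lemma join_left (A B : Set ℕ) : (REIn (join A B) fun n => n ∈ A) ∧
    REIn (join A B) fun n => n ∉ A := by
  have h : ∀ n, 2 * n ∈ join A B ↔ n ∈ A := by
    intro n
    change ((2 * n) % 2 = 0 ∧ 2 * n / 2 ∈ A) ∨ ((2 * n) % 2 = 1 ∧ 2 * n / 2 ∈ B) ↔ n ∈ A
    have e1 : (2 * n) % 2 = 0 := by omega
    have e2 : 2 * n / 2 = n := by omega
    rw [e1, e2]
    simp
  have hc : Computable fun n : ℕ => 2 * n :=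
    (Primrec.nat_mul.comp (Primrec.const 2) Primrec.id).to_comp
  exact ⟨(REIn.mem hc).of_eq h, (REIn.not_mem hc).of_eq fun n => not_congr (h n)⟩

lemma join_right (A B : Set ℕ) : (REIn (join A B) fun n => n ∈ B) ∧
    REIn (join A B) fun n => n ∉ B := by
  have h : ∀ n, 2 * n + 1 ∈ join A B ↔ n ∈ B := by
    intro n
    change ((2 * n + 1) % 2 = 0 ∧ (2 * n + 1) / 2 ∈ A) ∨
      ((2 * n + 1) % 2 = 1 ∧ (2 * n + 1) / 2 ∈ B) ↔ n ∈ B
    have e1 : (2 * n + 1) % 2 = 1 := by omega
    have e2 : (2 * n + 1) / 2 = n := by omega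
    rw [e1, e2]
    simp
  have hc : Computable fun n : ℕ => 2 * n + 1 :=
    (Primrec.succ.comp (Primrec.nat_mul.comp (Primrec.const 2) Primrec.id)).to_comp
  exact ⟨(REIn.mem hc).of_eq h, (REIn.not_mem hc).of_eq fun n => not_congr (h n)⟩

/-- Solutions for `c'` compute solutions for `c`. -/
lemma down {k : ℕ} {c c' : ℕ → Fin k} {N X Z : Set ℕ} {i : Fin k} (hN : Thin N)
    (hc : ∀ n, n ∉ N → c' n = c n) (hX : Solution c' X i) (r1 : REIn Z fun n => n ∈ X)
    (r2 : REIn Z fun n => n ∉ X) (r3 : REIn Z fun p : ℕ × Fin k => c p.1 = p.2) :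
    ∃ Y, Solution c Y i ∧ sums Y ⊆ sums X ∧ TuringReducible (char Y) (char Z) := by
  obtain ⟨h1, h2, h3⟩ := hX
  obtain ⟨U, hU, hUX⟩ := exists_idem h1
    (fun x hx => Nat.pos_of_ne_zero fun h => h2 (h ▸ hx))
  have r4 : REIn Z fun n => n ∉ {n | c n = i} := by
    have h4 : REIn Z fun n : ℕ => ∃ j : Fin k, c n = j ∧ j ≠ i := by
      refine REIn.ex (S := fun (n : ℕ) (j : Fin k) => c n = j ∧ j ≠ i) ?_
      exact REIn.and r3 (REIn.of_re (Pool.Agent.Helper446.RE.ne (by fun_prop) (by fun_prop)))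
    refine h4.of_eq fun n => ⟨?_, fun h => ⟨_, rfl, h⟩⟩
    rintro ⟨j, rfl, h⟩
    exact h
  obtain ⟨Y, k1, k2, k3, k4⟩ := transfer (P := {n | c n = i}) (Z := Z) h2 hU hUX
    (fun h => by
      filter_upwards [thin_gen hN hU h] with l hl hFS
      have h4 := h3 _ hFS
      rw [hc _ hl] at h4
      exact h4) r1 r2 ((r3.comp (f := fun n : ℕ => (n, i)) (by fun_prop)).of_eq fun _ => Iff.rfl) r4
  refine ⟨Y, ⟨k1, k2, ?_⟩, ?_, k4⟩
  · rintro n ⟨F, f1, f2, rfl⟩
    exact (k3 F f2 f1).2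
  · rintro n ⟨F, f1, f2, rfl⟩
    exact (k3 F f2 f1).1

/-- Every infinite set computes an infinite set all of whose sums are sums of the given set and
elements of `D`. -/
lemma inside {D X Z : Set ℕ} (hD : Meets D) (h1 : X.Infinite) (h2 : 0 ∉ X)
    (r1 : REIn Z fun n => n ∈ X) (r2 : REIn Z fun n => n ∉ X)
    (r3 : REIn Z fun n => n ∈ D) (r4 : REIn Z fun n => n ∉ D) :
    ∃ Y : Set ℕ, Y.Infinite ∧ 0 ∉ Y ∧ sums Y ⊆ sums X ∩ D ∧ TuringReducible (char Y) (char Z) := by
  obtain ⟨U, hU, hUX⟩ := exists_idem h1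
    (fun x hx => Nat.pos_of_ne_zero fun h => h2 (h ▸ hx))
  obtain ⟨Y, k1, k2, k3, k4⟩ := transfer (P := D) (Z := Z) h2 hU hUX
    (fun h => by
      filter_upwards [thin_gen (meets_iff.1 hD) hU h] with l hl _
      exact not_not.1 hl) r1 r2 r3 r4
  refine ⟨Y, k1, k2, ?_, k4⟩
  rintro n ⟨F, f1, f2, rfl⟩
  exact k3 F f2 f1

lemma inside_sol {k : ℕ} {c c' : ℕ → Fin k} {D X Y : Set ℕ} {i : Fin k}
    (hc : ∀ n ∈ D, c' n = c n) (hX : Solution c' X i) (h1 : Y.Infinite) (h2 : 0 ∉ Y)
    (h3 : sums Y ⊆ sums X ∩ D) : Solution c Y i :=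
  ⟨h1, h2, fun n hn => by rw [← hc n (h3 hn).2]; exact hX.2.2 n (h3 hn).1⟩

/-- Truth values as colours. -/
def b2 (b : Bool) : Fin 2 := if b = true then 1 else 0

lemma b2_inj : Function.Injective b2 := by
  intro a b h
  revert h
  cases a <;> cases b <;> simp [b2]

lemma double {N : Set ℕ} (hN : Thin N) {c' : ℕ → Bool}
    (hc : ∀ n, n ∉ N → c' n = Pool.Agent.N640.HU.cf n) {X : Set ℕ} {i : Bool}
    (hX : Solution c' X i) : ComputesDoubleJump X := by
  intro R hR
  have hcomp : Computable fun n => b2 (Pool.Agent.N640.HU.cf n) :=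
    ((Primrec.dom_finite b2).to_comp).comp Pool.Agent.N640.HU.c_cf
  obtain ⟨Y, ⟨k1, k2, k3⟩, -, k4⟩ := down (c := fun n => b2 (Pool.Agent.N640.HU.cf n))
    (c' := fun n => b2 (c' n)) (i := b2 i) hN (fun n hn => congrArg b2 (hc n hn))
    ⟨hX.1, hX.2.1, fun n hn => congrArg b2 (hX.2.2 n hn)⟩ (REIn.mem (A := X) Computable.id)
    (REIn.not_mem Computable.id)
    (REIn.of_re (Pool.Agent.Helper446.RE.eq (hcomp.comp Computable.fst) (by fun_prop)))
  have h1 := Pool.Agent.N640.HU.uniform (𝓕 := fun X => X.Infinite ∧ 0 ∉ X ∧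
      ∃ i, ∀ F : Finset ℕ, (F : Set ℕ) ⊆ X → F.Nonempty →
        Pool.Agent.N640.HU.cf (∑ n ∈ F, n) = i) Pool.Agent.N640.HU.ue_FS
    (fun X hX => Pool.Agent.N640.HU.good_FS hX.1 hX.2.1 hX.2.2) hR
  have hY : Y.Infinite ∧ 0 ∉ Y ∧ ∃ i, ∀ F : Finset ℕ, (F : Set ℕ) ⊆ Y → F.Nonempty →
      Pool.Agent.N640.HU.cf (∑ n ∈ F, n) = i :=
    ⟨k1, k2, i, fun F f1 f2 => b2_inj (k3 _ ⟨F, f2, f1, rfl⟩)⟩
  obtain ⟨q1, q2⟩ := turingReducible_iff.1 k4
  exact turingReducible_iff.2 ⟨re_trans (h1.1.reIn hY) q1 q2, re_trans (h1.2.reIn hY) q1 q2⟩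

lemma diag {N : Set ℕ} (hN : Thin N) {d' : ℕ → Bool}
    (hd' : ∀ n, n ∉ N → d' n = col (D3k W0 3) n) {X : Set ℕ} {i : Bool}
    (hX : Solution d' X i) : DiagonalOverTripleJump X ∧ NotSigmaFour X := by
  obtain ⟨h1, h2, h3⟩ := hX
  obtain ⟨U, hU, hUX⟩ := exists_idem h1
    (fun x hx => Nat.pos_of_ne_zero fun h => h2 (h ▸ hx))
  have hY : ∀ N, ∃ x ∈ FS X, 3 ^ N ∣ x := by
    intro N
    obtain ⟨n, ⟨G, g1, g2, -, rfl⟩, hn⟩ :=
      ((hUX ∅).and (hU.dvd (N := 3 ^ N) (by positivity))).exists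
    exact ⟨_, ⟨G, g1, g2, rfl⟩, hn⟩
  have hV2 : ∃ i, ∀ h ∈ FS X, Sm U 3 (fun l => col (D3k W0 3) (h + l) = i) := by
    refine ⟨i, ?_⟩
    rintro h ⟨F, f1, f2, rfl⟩
    rw [Sm_idem hU (by omega)]
    filter_upwards [hUX F, thin_gen hN hU (∑ n ∈ F, n)] with l hl hl2
    rw [← hd' _ hl2]
    obtain ⟨G, g1, g2, g3, rfl⟩ := hl
    refine h3 _ ⟨F ∪ G, f1.mono Finset.subset_union_left, ?_, Finset.sum_union g3⟩
    rw [Finset.coe_union]
    exact Set.union_subset f2 g2
  constructor
  · intro R hR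
    obtain ⟨f, hf1, hf2⟩ :=
      dnc (k := 3) le_rfl hU.far (zero_notMem_FS h2) hY hV2 re_FS re_not_FS hR
    exact ⟨f, turingReducible_fun_iff.2 hf1, hf2⟩
  · intro R hR hXR
    exact no_sigma4 (k := 3) le_rfl hU.far (zero_notMem_FS h2) hY hV2 (c_RFS hR) (FS_sig4 hXR)

/-- The restriction of a colouring to `D`, with the other numbers in one colour. -/
lemma sparse_colouring {e : ℕ → Bool} (he : Computable e) {D : Set ℕ}
    (hD : ComputablePred fun n => n ∈ D) : ∃ c : ℕ → Bool, Computable c ∧ (∀ n ∈ D, c n = e n) ∧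
      {n | c n = true} ⊆ D := by
  obtain ⟨f, hf, hfD⟩ := ComputablePred.computable_iff.1 hD
  have h1 : ∀ n, n ∈ D ↔ f n = true := fun n => iff_of_eq (congrFun hfD n)
  refine ⟨fun n => f n && e n, Primrec.and.to_comp.comp hf he, ?_, ?_⟩
  · intro n hn
    show (f n && e n) = e n
    rw [(h1 n).1 hn, Bool.true_and]
  · intro n hn
    exact (h1 n).2 (Bool.and_eq_true_iff.1 hn).1

/-- The restriction to `D` of a colouring, with the colour `0` outside. -/
lemma reduction {k : ℕ} (c : ℕ → Fin (k + 1)) {D : Set ℕ} (hM : Meets D)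
    (hD : ComputablePred fun n => n ∈ D) : ∃ c' : ℕ → Fin (k + 1),
      TuringReducible (char (graph c')) (char (graph c)) ∧ {n | c' n ≠ 0} ⊆ D ∧
      ∀ X i, Solution c' X i → ∃ Y, Solution c Y i ∧ sums Y ⊆ sums X ∩ D ∧
        TuringReducible (char Y) (char X) := by
  classical
  let c' : ℕ → Fin (k + 1) := fun n => if n ∈ D then c n else 0
  have hc1 : ∀ n, n ∈ D → c' n = c n := fun n hn => if_pos hn
  have hc2 : ∀ n, n ∉ D → c' n = 0 := fun n hn => if_neg hn
  have hu1 : Computable fun n : ℕ => n.unpair.1 := Computable.fst.comp Computable.unpair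
  have hu2 : Computable fun n : ℕ => n.unpair.2 := Computable.snd.comp Computable.unpair
  have d1 : REPred fun n : ℕ => n.unpair.1 ∈ D := Pool.Agent.Helper446.RE.comp hD.to_re hu1
  have d2 : REPred fun n : ℕ => n.unpair.1 ∉ D := Pool.Agent.Helper446.RE.comp hD.not.to_re hu1
  refine ⟨c', turingReducible_iff.2 ⟨?_, ?_⟩, ?_, ?_⟩
  · have h : REIn (graph c) fun n => (n.unpair.1 ∈ D ∧ n ∈ graph c) ∨
        (n.unpair.1 ∉ D ∧ n.unpair.2 = 0) :=
      REIn.or (REIn.and (REIn.of_re d1) (REIn.mem Computable.id))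
        (REIn.and (REIn.of_re d2) (REIn.of_re
          (Pool.Agent.Helper446.RE.eq hu2 (Computable.const 0))))
    refine h.of_eq fun n => ?_
    show _ ↔ (c' n.unpair.1 : ℕ) = n.unpair.2
    by_cases hn : n.unpair.1 ∈ D
    · rw [hc1 _ hn]
      exact ⟨fun h => h.elim (fun h => h.2) fun h => absurd hn h.1, fun h => Or.inl ⟨hn, h⟩⟩
    · rw [hc2 _ hn]
      exact ⟨fun h => h.elim (fun h => absurd h.1 hn) fun h => h.2.symm,
        fun h => Or.inr ⟨hn, h.symm⟩⟩
  · have h : REIn (graph c) fun n => (n.unpair.1 ∈ D ∧ n ∉ graph c) ∨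
        (n.unpair.1 ∉ D ∧ n.unpair.2 ≠ 0) :=
      REIn.or (REIn.and (REIn.of_re d1) (REIn.not_mem Computable.id))
        (REIn.and (REIn.of_re d2) (REIn.of_re
          (Pool.Agent.Helper446.RE.ne hu2 (Computable.const 0))))
    refine h.of_eq fun n => ?_
    show _ ↔ ¬ (c' n.unpair.1 : ℕ) = n.unpair.2
    by_cases hn : n.unpair.1 ∈ D
    · rw [hc1 _ hn]
      exact ⟨fun h => h.elim (fun h => h.2) fun h => absurd hn h.1, fun h => Or.inl ⟨hn, h⟩⟩
    · rw [hc2 _ hn]
      exact ⟨fun h => h.elim (fun h => absurd h.1 hn) fun h h' => h.2 h'.symm,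
        fun h => Or.inr ⟨hn, fun h' => h h'.symm⟩⟩
  · intro n hn
    by_contra h
    exact hn (hc2 n h)
  · intro X i hX
    obtain ⟨Y, h1, h2, h3, h4⟩ := inside hM hX.1 hX.2.1 (REIn.mem (A := X) Computable.id)
      (REIn.not_mem (A := X) Computable.id) (REIn.of_re hD.to_re) (REIn.of_re hD.not.to_re)
    exact ⟨Y, inside_sol hc1 hX h1 h2 h3, h3, h4⟩

lemma density_mono {ε : ℝ} {A B : Set ℕ} (hAB : A ⊆ B) (hB : Density ε B) : Density ε A := by
  intro x
  refine le_trans (Nat.cast_le.2 (Set.ncard_le_ncard (Set.inter_subset_inter_left _ hAB) ?_)) (hB x)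
  exact (Set.finite_Icc 1 x).subset Set.inter_subset_right

end proofs

open Pool.Agent.Helper76x.NZ in
/-- **The strength of Hindman's theorem is concentrated on sets of small density.** -/
theorem result :
    -- (1) if `D` meets all translates of sets of sums, colourings which agree on `D` have the same
    -- solutions up to Turing reducibility
    (∀ D : Set ℕ, Meets D → ∀ (k : ℕ) (c c' : ℕ → Fin k) (i : Fin k), (∀ n ∈ D, c' n = c n) →
      ∀ X, Solution c' X i →
        (∃ Y, Solution c Y i ∧ sums Y ⊆ sums X ∧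
          TuringReducible (char Y) (char (join X (graph c)))) ∧
        (Computable c → ∃ Y, Solution c Y i ∧ sums Y ⊆ sums X ∧
          TuringReducible (char Y) (char X)) ∧
        (∃ Y, Solution c Y i ∧ sums Y ⊆ sums X ∩ D ∧
          TuringReducible (char Y) (char (join X D))) ∧
        ((ComputablePred fun n => n ∈ D) → ∃ Y, Solution c Y i ∧ sums Y ⊆ sums X ∩ D ∧
          TuringReducible (char Y) (char X))) ∧
    -- (2) there are computable sets `D` of this kind of arbitrarily small density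
    (∀ ε : ℝ, 0 < ε → ∃ D : Set ℕ, (ComputablePred fun n => n ∈ D) ∧ Meets D ∧ Density ε D) ∧
    -- (3) Hindman's theorem reduces to colourings with all colours but one of small density
    (∀ ε : ℝ, 0 < ε → ∀ (k : ℕ) (c : ℕ → Fin (k + 1)), ∃ c' : ℕ → Fin (k + 1),
      TuringReducible (char (graph c')) (char (graph c)) ∧ Density ε {n | c' n ≠ 0} ∧
      ∀ X i, Solution c' X i → ∃ Y, Solution c Y i ∧ sums Y ⊆ sums X ∧
        TuringReducible (char Y) (char X)) ∧
    -- (4) computable colourings with a colour of small density for which the known lower bounds are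
    -- caused by the colours on `D`, for every such `D`
    (∀ ε : ℝ, 0 < ε → ∃ c d : ℕ → Bool, Computable c ∧ Computable d ∧
      Density ε {n | c n = true} ∧ Density ε {n | d n = true} ∧ ∀ D : Set ℕ, Meets D →
        (∀ c' : ℕ → Bool, (∀ n ∈ D, c' n = c n) → ∀ X i, Solution c' X i →
          ComputesDoubleJump X) ∧
        ∀ d' : ℕ → Bool, (∀ n ∈ D, d' n = d n) → ∀ X i, Solution d' X i →
          DiagonalOverTripleJump X ∧ NotSigmaFour X) ∧
    -- (5) if `D` is not syndetic, what happens on `D` does not matter at all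
    (∀ D : Set ℕ, ¬ Syndetic D → ∃ X : Set ℕ, TuringReducible (char X) (char D) ∧
      ∀ (k : ℕ) (c : ℕ → Fin k) (i : Fin k), (∀ n, n ∉ D → c n = i) → Solution c X i) ∧
    -- (6) the sets `D` of this kind form a filter, and independent random changes with probabilities
    -- of polynomial decay leave almost surely such a set unchanged
    (∀ D₁ D₂ : Set ℕ, Meets D₁ → Meets D₂ → Meets (D₁ ∩ D₂)) ∧
    (∀ (Ω : Type) [MeasurableSpace Ω] (μ : Measure Ω) [IsProbabilityMeasure μ] (E : ℕ → Set Ω)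
      (C δ : ℝ), (∀ n, MeasurableSet (E n)) → iIndepSet E μ → 0 < δ →
        (∀ n : ℕ, 0 < n → μ.real (E n) ≤ C * (n : ℝ) ^ (-δ)) →
          ∀ᵐ ω ∂μ, ∀ D : Set ℕ, Meets D → Meets (D \ {n | ω ∈ E n})) := by
  have hthin : ∀ {D : Set ℕ}, Meets D → Thin Dᶜ := fun h => meets_iff.1 h
  have hhard : ∀ D : Set ℕ, Meets D →
      (∀ c' : ℕ → Bool, (∀ n ∈ D, c' n = Pool.Agent.N640.HU.cf n) → ∀ X i, Solution c' X i →
        ComputesDoubleJump X) ∧
      ∀ d' : ℕ → Bool, (∀ n ∈ D, d' n = Pool.Agent.TH747.HS.col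
        (Pool.Agent.TH747.HS.D3k Pool.Agent.H645R2.HT.W0 3) n) → ∀ X i, Solution d' X i →
        DiagonalOverTripleJump X ∧ NotSigmaFour X := fun D hD =>
    ⟨fun c' hc X i hX => double (hthin hD) (fun n hn => hc n (not_not.1 hn)) hX,
      fun d' hd X i hX => diag (hthin hD) (fun n hn => hd n (not_not.1 hn)) hX⟩
  have hsmall : ∀ ε : ℝ, 0 < ε → ∃ D : Set ℕ, (ComputablePred fun n => n ∈ D) ∧ Meets D ∧
      Density ε D := by
    intro ε hε
    obtain ⟨j, hj⟩ := small hε
    exact ⟨Ds j, comp_Ds j, meets_iff.2 (thin_Ds j), hj⟩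
  have hcd : Computable (Pool.Agent.TH747.HS.col
      (Pool.Agent.TH747.HS.D3k Pool.Agent.H645R2.HT.W0 3)) :=
    Pool.Agent.TH747.HS.c_col (Pool.Agent.TH747.HS.c_D3k Pool.Agent.H645R2.HT.c_W0 3)
  refine ⟨?_, hsmall, ?_, ?_, ?_, fun D₁ D₂ => meets_inter, ?_⟩
  · intro D hD k c c' i hc X hX
    have hc' : ∀ n, n ∉ Dᶜ → c' n = c n := fun n hn => hc n (not_not.1 hn)
    have m1 := Pool.Agent.Helper446.Oracle.REIn.mem (A := X) (f := fun n : ℕ => n) Computable.id
    have m2 := Pool.Agent.Helper446.Oracle.REIn.not_mem (A := X) (f := fun n : ℕ => n)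
      Computable.id
    refine ⟨?_, fun hcomp => ?_, ?_, fun hcomp => ?_⟩
    · exact down (hthin hD) hc' hX (join_left X (graph c)).1 (join_left X (graph c)).2
        (re_trans (re_graph c) (join_right X (graph c)).1 (join_right X (graph c)).2)
    · exact down (hthin hD) hc' hX m1 m2 (Pool.Agent.Helper446.Oracle.REIn.of_re
          (Pool.Agent.Helper446.RE.eq (hcomp.comp Computable.fst) (by fun_prop)))
    · obtain ⟨Y, h1, h2, h3, h4⟩ := inside hD hX.1 hX.2.1 (join_left X D).1 (join_left X D).2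
        (join_right X D).1 (join_right X D).2
      exact ⟨Y, inside_sol hc hX h1 h2 h3, h3, h4⟩
    · obtain ⟨Y, h1, h2, h3, h4⟩ := inside hD hX.1 hX.2.1 m1 m2
        (Pool.Agent.Helper446.Oracle.REIn.of_re hcomp.to_re)
        (Pool.Agent.Helper446.Oracle.REIn.of_re hcomp.not.to_re)
      exact ⟨Y, inside_sol hc hX h1 h2 h3, h3, h4⟩
  · intro ε hε k c
    obtain ⟨D, h1, h2, h3⟩ := hsmall ε hε
    obtain ⟨c', c1, c2, c3⟩ := reduction c h2 h1
    refine ⟨c', c1, density_mono c2 h3, fun X i hX => ?_⟩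
    obtain ⟨Y, k1, k2, k3⟩ := c3 X i hX
    exact ⟨Y, k1, fun n hn => (k2 hn).1, k3⟩
  · intro ε hε
    obtain ⟨D, h1, h2, h3⟩ := hsmall ε hε
    obtain ⟨c, c1, c2, c3⟩ := sparse_colouring Pool.Agent.N640.HU.c_cf h1
    obtain ⟨d, d1, d2, d3⟩ := sparse_colouring hcd h1
    refine ⟨c, d, c1, d1, density_mono c3 h3, density_mono d3 h3, fun D' hD' =>
      ⟨fun c' hc' => ?_, fun d' hd' => ?_⟩⟩
    · exact (hhard _ (meets_inter hD' h2)).1 c' fun n hn => (hc' n hn.1).trans (c2 n hn.2)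
    · exact (hhard _ (meets_inter hD' h2)).2 d' fun n hn => (hd' n hn.1).trans (d2 n hn.2)
  · intro D hD
    have hD' : ∀ g, ∃ y, ∀ n, y ≤ n → n ≤ y + g → n ∉ D := by
      intro g
      by_contra h
      push Not at h
      refine hD ⟨g, fun y => ?_⟩
      obtain ⟨n, h1, h2, h3⟩ := h y
      exact ⟨n, h3, h1, h2⟩
    obtain ⟨X, h1, h2, h3, h4⟩ := avoid hD'
    refine ⟨X, h4, fun k c i hc => ⟨h1, h2, ?_⟩⟩
    rintro n ⟨F, f1, f2, rfl⟩
    exact hc _ (h3 F f2 f1)
  · intro Ω _ μ _ E C δ hm hi hδ hp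
    obtain ⟨m, -, h⟩ := t_P1 Ω μ E C δ hm hi hδ hp
    filter_upwards [h] with ω hω D hD
    have h1 : Meets {n | ω ∈ E n}ᶜ := by
      rw [meets_iff, compl_compl]
      exact NC.thin hω.nc
    exact meets_inter hD h1

end Pool.Agent.Results.MP_69fea5_lc.SmallDensityCore
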